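import Pool.Agent.Helper5.BD.Defs

/-!
# BoundedDegeneracy (MP_79ec0d_co), module D1: sampling with alteration
-/

noncomputable section

open Finset Helper5.CR Classical

namespace Helper5.BD

section D1

/-- mean of a product of functions of the coordinates -/
private theorem mean_prod {I O : Type} [Fintype I] [Fintype O] (μ G : I → O → ℝ) :
    ∑ f : I → O, (∏ i, μ i (f i)) * ∏ i, G i (f i) = ∏ i, ∑ o, μ i o * G i o := by
  rw [Finset.prod_univ_sum]
  rw [Fintype.piFinset_univ]
  refine Finset.sum_congr rfl fun f _ => ?_
  rw [Finset.prod_mul_distrib]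

private theorem mean_one {I O : Type} [Fintype I] [Fintype O] (μ : I → O → ℝ)
    (h1 : ∀ i, ∑ o, μ i o = 1) : ∑ f : I → O, (∏ i, μ i (f i)) = 1 := by
  have h := mean_prod μ (fun _ _ => 1)
  simpa [h1] using h

private theorem mean_ind {I O : Type} [Fintype I] [Fintype O] [DecidableEq O] (μ : I → O → ℝ)
    (h1 : ∀ i, ∑ o, μ i o = 1) (i : I) (a : O) :
    ∑ f : I → O, (∏ k, μ k (f k)) * (if f i = a then 1 else 0) = μ i a := by
  have h := mean_prod μ (fun k o => if k = i then (if o = a then 1 else 0) else 1)
  have h2 : ∀ f : I → O, (∏ k, (if k = i then (if f k = a then (1 : ℝ) else 0) else 1)) =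
      if f i = a then 1 else 0 := by
    intro f
    rw [Finset.prod_ite_eq' univ i (fun k => if f k = a then (1 : ℝ) else 0)]
    simp
  have h3 : ∀ k, ∑ o, μ k o * (if k = i then (if o = a then (1 : ℝ) else 0) else 1) =
      if k = i then μ k a else 1 := by
    intro k
    by_cases hk : k = i
    · simp [hk]
    · simp [hk, h1]
  simp only [h2, h3] at h
  rw [h, Finset.prod_ite_eq' univ i (fun k => μ k a)]
  simp

private theorem mean_ind2 {I O : Type} [Fintype I] [Fintype O] [DecidableEq O] (μ : I → O → ℝ)
    (h1 : ∀ i, ∑ o, μ i o = 1) (i j : I) (hij : i ≠ j) (a b : O) :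
    ∑ f : I → O, (∏ k, μ k (f k)) * ((if f i = a then 1 else 0) * (if f j = b then 1 else 0)) =
      μ i a * μ j b := by
  have h := mean_prod μ (fun k o => (if k = i then (if o = a then 1 else 0) else 1) *
    (if k = j then (if o = b then 1 else 0) else 1))
  have h2 : ∀ f : I → O, (∏ k, ((if k = i then (if f k = a then (1 : ℝ) else 0) else 1) *
      (if k = j then (if f k = b then (1 : ℝ) else 0) else 1))) =
      (if f i = a then 1 else 0) * (if f j = b then 1 else 0) := by
    intro f
    rw [Finset.prod_mul_distrib]
    rw [Finset.prod_ite_eq' univ i (fun k => if f k = a then (1 : ℝ) else 0),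
      Finset.prod_ite_eq' univ j (fun k => if f k = b then (1 : ℝ) else 0)]
    simp
  have h3 : ∀ k, ∑ o, μ k o * ((if k = i then (if o = a then (1 : ℝ) else 0) else 1) *
      (if k = j then (if o = b then (1 : ℝ) else 0) else 1)) =
      (if k = i then μ k a else 1) * (if k = j then μ k b else 1) := by
    intro k
    by_cases hk : k = i
    · have hkj : k ≠ j := by rw [hk]; exact hij
      simp [hk, hij]
    · by_cases hkj : k = j
      · simp [hkj, hij.symm]
      · simp [hk, hkj, h1]
  simp only [h2, h3] at h
  rw [h, Finset.prod_mul_distrib, Finset.prod_ite_eq' univ i (fun k => μ k a),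
    Finset.prod_ite_eq' univ j (fun k => μ k b)]
  simp

/-- D1 (sampling). -/
theorem sampling {I A : Type} [Fintype I] [Fintype A] [Nonempty A] (S : I → Finset A)
    (w c : I → ℝ) (hw : ∀ i, 0 ≤ w i) (hc : ∀ i, 0 < c i) (hS : ∀ i, ((S i).card : ℝ) ≤ c i)
    (q : ℝ) (hq0 : 0 ≤ q) (hq1 : q ≤ 1) (R : I → A → I → A → Prop)
    (hR : ∀ i a j b, R i a j b → R j b i a) (L : ℝ)
    (hL : ∑ i, ∑ j ∈ univ.erase i, ∑ a ∈ S i, ∑ b ∈ S j,
      (if R i a j b then min (w i) (w j) / (c i * c j) else 0) ≤ L) :
    ∃ (T : Finset I) (ρ : I → A), (∀ i ∈ T, ρ i ∈ S i) ∧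
      (∀ i ∈ T, ∀ j ∈ T, i ≠ j → ¬ R i (ρ i) j (ρ j)) ∧
      q * ∑ i, w i * (S i).card / c i - q ^ 2 * L ≤ ∑ i ∈ T, w i := by
  -- the weights
  let μ : I → Option A → ℝ := fun i o =>
    match o with
    | none => 1 - q * (S i).card / c i
    | some a => if a ∈ S i then q / c i else 0
  have hμs : ∀ i, ∀ a ∈ S i, μ i (some a) = q / c i := by
    intro i a ha
    simp [μ, ha]
  have hμ0 : ∀ i o, 0 ≤ μ i o := by
    intro i o
    cases o with
    | none =>
      have h1 : q * (S i).card / c i ≤ 1 := by
        rw [div_le_one (hc i)]
        calc q * (S i).card ≤ 1 * (S i).card :=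
              mul_le_mul_of_nonneg_right hq1 (Nat.cast_nonneg _)
          _ = (S i).card := one_mul _
          _ ≤ c i := hS i
      simp only [μ]
      linarith
    | some a =>
      simp only [μ]
      split_ifs
      · exact div_nonneg hq0 (hc i).le
      · exact le_rfl
  have hμ1 : ∀ i, ∑ o, μ i o = 1 := by
    intro i
    rw [Fintype.sum_option]
    simp only [μ]
    rw [Finset.sum_ite_mem, Finset.univ_inter, Finset.sum_const, nsmul_eq_mul]
    ring
  -- the score
  let F : (I → Option A) → ℝ := fun f =>
    (∑ i, ∑ a ∈ S i, w i * (if f i = some a then 1 else 0)) -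
      ∑ i, ∑ j ∈ univ.erase i, ∑ a ∈ S i, ∑ b ∈ S j,
        (if R i a j b then min (w i) (w j) else 0) *
          ((if f i = some a then 1 else 0) * (if f j = some b then 1 else 0))
  let P : (I → Option A) → ℝ := fun f => ∏ i, μ i (f i)
  have hP0 : ∀ f, 0 ≤ P f := fun f => Finset.prod_nonneg fun i _ => hμ0 i (f i)
  have hP1 : ∑ f, P f = 1 := mean_one μ hμ1
  have hmean : q * ∑ i, w i * (S i).card / c i - q ^ 2 * L ≤ ∑ f, P f * F f := by
    have e1 : ∑ f, P f * F f =
        (∑ i, ∑ a ∈ S i, w i * (∑ f, P f * (if f i = some a then 1 else 0))) -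
        ∑ i, ∑ j ∈ univ.erase i, ∑ a ∈ S i, ∑ b ∈ S j,
          (if R i a j b then min (w i) (w j) else 0) *
            (∑ f, P f * ((if f i = some a then 1 else 0) * (if f j = some b then 1 else 0))) := by
      simp only [F, mul_sub, Finset.sum_sub_distrib]
      congr 1
      · simp only [Finset.mul_sum]
        rw [Finset.sum_comm]
        refine Finset.sum_congr rfl fun i _ => ?_
        rw [Finset.sum_comm]
        refine Finset.sum_congr rfl fun a _ => ?_
        refine Finset.sum_congr rfl fun f _ => ?_
        ring
      · simp only [Finset.mul_sum]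
        rw [Finset.sum_comm]
        refine Finset.sum_congr rfl fun i _ => ?_
        rw [Finset.sum_comm]
        refine Finset.sum_congr rfl fun j _ => ?_
        rw [Finset.sum_comm]
        refine Finset.sum_congr rfl fun a _ => ?_
        rw [Finset.sum_comm]
        refine Finset.sum_congr rfl fun b _ => ?_
        refine Finset.sum_congr rfl fun f _ => ?_
        ring
    have e2 : (∑ i, ∑ a ∈ S i, w i * (∑ f, P f * (if f i = some a then 1 else 0))) =
        q * ∑ i, w i * (S i).card / c i := by
      rw [Finset.mul_sum]
      refine Finset.sum_congr rfl fun i _ => ?_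
      have e3 : ∀ a ∈ S i, w i * (∑ f, P f * (if f i = some a then 1 else 0)) =
          w i * (q / c i) := by
        intro a ha
        rw [mean_ind μ hμ1 i (some a), hμs i a ha]
      rw [Finset.sum_congr rfl e3, Finset.sum_const, nsmul_eq_mul]
      ring
    have e4 : (∑ i, ∑ j ∈ univ.erase i, ∑ a ∈ S i, ∑ b ∈ S j,
          (if R i a j b then min (w i) (w j) else 0) *
            (∑ f, P f * ((if f i = some a then 1 else 0) * (if f j = some b then 1 else 0)))) =
        q ^ 2 * ∑ i, ∑ j ∈ univ.erase i, ∑ a ∈ S i, ∑ b ∈ S j,
          (if R i a j b then min (w i) (w j) / (c i * c j) else 0) := by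
      simp only [Finset.mul_sum]
      refine Finset.sum_congr rfl fun i _ => ?_
      refine Finset.sum_congr rfl fun j hj => ?_
      refine Finset.sum_congr rfl fun a ha => ?_
      refine Finset.sum_congr rfl fun b hb => ?_
      have hij : i ≠ j := (Finset.ne_of_mem_erase hj).symm
      have e5 := mean_ind2 μ hμ1 i j hij (some a) (some b)
      rw [hμs i a ha, hμs j b hb] at e5
      have e6 : ∑ f, P f * ((if f i = some a then (1 : ℝ) else 0) *
          (if f j = some b then 1 else 0)) = q / c i * (q / c j) := e5
      rw [← Finset.mul_sum, e6]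
      split_ifs
      · field_simp
      · ring
    rw [e1, e2, e4]
    have h := mul_le_mul_of_nonneg_left hL (sq_nonneg q)
    linarith
  -- a function which is at least the mean
  obtain ⟨f, hf⟩ : ∃ f, q * ∑ i, w i * (S i).card / c i - q ^ 2 * L ≤ F f := by
    obtain ⟨f, -, hf⟩ := Finset.exists_max_image (univ : Finset (I → Option A)) F
      ⟨fun _ => none, Finset.mem_univ _⟩
    refine ⟨f, hmean.trans ?_⟩
    calc ∑ g, P g * F g ≤ ∑ g, P g * F f :=
          Finset.sum_le_sum fun g hg => mul_le_mul_of_nonneg_left (hf g hg) (hP0 g)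
      _ = F f := by rw [← Finset.sum_mul, hP1, one_mul]
  -- the family
  let T : Finset I := univ.filter (fun i => ∃ a ∈ S i, f i = some a ∧
    ∀ j, j ≠ i → ∀ b ∈ S j, f j = some b → R i a j b → w j < w i)
  let ρ : I → A := fun i => (f i).getD (Classical.arbitrary A)
  have hρ : ∀ i a, f i = some a → ρ i = a := by
    intro i a h
    simp [ρ, h]
  refine ⟨T, ρ, ?_, ?_, hf.trans ?_⟩
  · intro i hi
    obtain ⟨a, ha, hfa, -⟩ := (Finset.mem_filter.mp hi).2
    rw [hρ i a hfa]
    exact ha
  · intro i hi j hj hij hRij
    obtain ⟨a, ha, hfa, h1⟩ := (Finset.mem_filter.mp hi).2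
    obtain ⟨b, hb, hfb, h2⟩ := (Finset.mem_filter.mp hj).2
    rw [hρ i a hfa, hρ j b hfb] at hRij
    have h3 := h1 j hij.symm b hb hfb hRij
    have h4 := h2 i hij a ha hfa (hR _ _ _ _ hRij)
    exact lt_asymm h3 h4
  · have key : ∀ i, (∑ a ∈ S i, w i * (if f i = some a then 1 else 0)) -
        (∑ j ∈ univ.erase i, ∑ a ∈ S i, ∑ b ∈ S j,
          (if R i a j b then min (w i) (w j) else 0) *
            ((if f i = some a then 1 else 0) * (if f j = some b then 1 else 0))) ≤
        if i ∈ T then w i else 0 := by
      intro i
      have hn0 : ∀ j a b, 0 ≤ (if R i a j b then min (w i) (w j) else 0) *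
            ((if f i = some a then (1 : ℝ) else 0) * (if f j = some b then 1 else 0)) := by
        intro j a b
        refine mul_nonneg ?_ (mul_nonneg ?_ ?_)
        · split_ifs
          · exact le_min (hw i) (hw j)
          · exact le_rfl
        · split_ifs <;> norm_num
        · split_ifs <;> norm_num
      have hn : 0 ≤ (∑ j ∈ univ.erase i, ∑ a ∈ S i, ∑ b ∈ S j,
          (if R i a j b then min (w i) (w j) else 0) *
            ((if f i = some a then (1 : ℝ) else 0) * (if f j = some b then 1 else 0))) :=
        Finset.sum_nonneg fun j _ => Finset.sum_nonneg fun a _ => Finset.sum_nonneg fun b _ =>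
          hn0 j a b
      have hup : (∑ a ∈ S i, w i * (if f i = some a then (1 : ℝ) else 0)) ≤
          if (∃ a ∈ S i, f i = some a) then w i else 0 := by
        split_ifs with hex
        · obtain ⟨a, ha, hfa⟩ := hex
          rw [Finset.sum_eq_single a]
          · simp [hfa]
          · intro b _ hba
            have : f i ≠ some b := by
              rw [hfa]
              intro h
              exact hba (Option.some.inj h).symm
            simp [this]
          · intro h
            exact absurd ha h
        · refine le_of_eq (Finset.sum_eq_zero fun a ha => ?_)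
          have : f i ≠ some a := fun h => hex ⟨a, ha, h⟩
          simp [this]
      by_cases hiT : i ∈ T
      · rw [if_pos hiT]
        have : (if (∃ a ∈ S i, f i = some a) then w i else 0) ≤ w i := by
          split_ifs
          · exact le_rfl
          · exact hw i
        linarith
      · rw [if_neg hiT]
        by_cases hex : ∃ a ∈ S i, f i = some a
        · rw [if_pos hex] at hup
          obtain ⟨a, ha, hfa⟩ := hex
          have h5 : ¬ ∀ j, j ≠ i → ∀ b ∈ S j, f j = some b → R i a j b → w j < w i := by
            intro h6
            exact hiT (Finset.mem_filter.mpr ⟨Finset.mem_univ _, a, ha, hfa, h6⟩)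
          push Not at h5
          obtain ⟨j, hji, b, hb, hfb, hRij, hwij⟩ := h5
          have h7 : w i ≤ (∑ j ∈ univ.erase i, ∑ a ∈ S i, ∑ b ∈ S j,
              (if R i a j b then min (w i) (w j) else 0) *
              ((if f i = some a then (1 : ℝ) else 0) * (if f j = some b then 1 else 0))) := by
            have s1 : (if R i a j b then min (w i) (w j) else 0) *
                ((if f i = some a then (1 : ℝ) else 0) * (if f j = some b then 1 else 0)) = w i := by
              simp [hRij, hfa, hfb, min_eq_left hwij]
            calc w i = (if R i a j b then min (w i) (w j) else 0) *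
                ((if f i = some a then (1 : ℝ) else 0) * (if f j = some b then 1 else 0)) := s1.symm
              _ ≤ ∑ b ∈ S j, (if R i a j b then min (w i) (w j) else 0) *
                ((if f i = some a then (1 : ℝ) else 0) * (if f j = some b then 1 else 0)) :=
                Finset.single_le_sum (f := fun b => (if R i a j b then min (w i) (w j) else 0) *
                  ((if f i = some a then (1 : ℝ) else 0) * (if f j = some b then 1 else 0)))
                  (fun b _ => hn0 j a b) hb
              _ ≤ ∑ a ∈ S i, ∑ b ∈ S j, (if R i a j b then min (w i) (w j) else 0) *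
                ((if f i = some a then (1 : ℝ) else 0) * (if f j = some b then 1 else 0)) :=
                Finset.single_le_sum (f := fun a => ∑ b ∈ S j,
                  (if R i a j b then min (w i) (w j) else 0) *
                  ((if f i = some a then (1 : ℝ) else 0) * (if f j = some b then 1 else 0)))
                  (fun a _ => Finset.sum_nonneg fun b _ => hn0 j a b) ha
              _ ≤ _ :=
                Finset.single_le_sum (f := fun j => ∑ a ∈ S i, ∑ b ∈ S j,
                  (if R i a j b then min (w i) (w j) else 0) *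
                  ((if f i = some a then (1 : ℝ) else 0) * (if f j = some b then 1 else 0)))
                  (fun j _ => Finset.sum_nonneg fun a _ => Finset.sum_nonneg fun b _ => hn0 j a b)
                  (Finset.mem_erase.mpr ⟨hji, Finset.mem_univ _⟩)
          linarith
        · rw [if_neg hex] at hup
          linarith
    calc F f = ∑ i, ((∑ a ∈ S i, w i * (if f i = some a then 1 else 0)) -
        (∑ j ∈ univ.erase i, ∑ a ∈ S i, ∑ b ∈ S j,
          (if R i a j b then min (w i) (w j) else 0) *
            ((if f i = some a then 1 else 0) * (if f j = some b then 1 else 0)))) := by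
          rw [Finset.sum_sub_distrib]
      _ ≤ ∑ i, if i ∈ T then w i else 0 := Finset.sum_le_sum fun i _ => key i
      _ = ∑ i ∈ T, w i := by
          rw [Finset.sum_ite_mem, Finset.univ_inter]

end D1

end Helper5.BD
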